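import Pool.Agent.K1H17.ST.Ort

/-! Split abelian groups of birational automorphisms: the movable cone conjecture. -/

set_option autoImplicit false
set_option linter.overlappingInstances false
set_option linter.unusedSectionVars false
set_option linter.unusedVariables false

open FF Module Pool.Agent.K1H17.MC

namespace Pool.Agent.K1H17.ST

section

variable {k K : Type} [Field k] [Field K] [Algebra k K] {P : Set (Place k K)}

/-- The group `A` of birational automorphisms acts on `N¹(Y)` with the basis `e` of common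
eigenvectors and positive eigenvalues `c a i`, and its rank is the largest possible one, the Picard
number minus one: if `∑ w i * log (c a i) = 0` for all `a` in `A`, then all `w i` are equal. (For
equal `w i` this holds because the determinants are `1`. So the vectors `(log (c a i))` span a space
of dimension `n - 1`.) -/
structure IsSplit {n : ℕ} (A : Subgroup (psAut P)) (e : Basis (Fin n) ℝ (N1 P))
    (c : A → Fin n → ℝ) : Prop where
  eig : ∀ (a : A) (i : Fin n), act (a : psAut P) (e i) = c a i • e i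
  pos : ∀ (a : A) (i : Fin n), 0 < c a i
  rank : ∀ w : Fin n → ℝ, (∀ a : A, ∑ i, w i * Real.log (c a i) = 0) → ∀ i j, w i = w j

variable {n : ℕ} {A : Subgroup (psAut P)} {e : Basis (Fin n) ℝ (N1 P)} {c : A → Fin n → ℝ}

theorem act_mul (g h : psAut P) (x : N1 P) : act (g * h) x = act g (act h x) :=
  rho_mul (ρ := rho P) g h x

theorem act_inv (g : psAut P) (x : N1 P) : act g (act g⁻¹ x) = x := rho_inv' (ρ := rho P) g x

theorem act_inv' (g : psAut P) (x : N1 P) : act g⁻¹ (act g x) = x := rho_inv (ρ := rho P) g x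

theorem IsSplit.mul (h : IsSplit A e c) (a b : A) (i : Fin n) : c (a * b) i = c a i * c b i := by
  have h1 := h.eig (a * b) i
  rw [Subgroup.coe_mul, act_mul, h.eig b, map_smul, h.eig a, smul_smul] at h1
  have h2 := smul_left_injective ℝ (e.ne_zero i) h1
  rw [← h2, mul_comm]

theorem IsSplit.repr (h : IsSplit A e c) (a : A) (x : N1 P) (i : Fin n) :
    e.repr (act (a : psAut P) x) i = c a i * e.repr x i := by
  conv_lhs => rw [← e.sum_repr x]
  rw [map_sum, map_sum, Finsupp.finset_sum_apply, Finset.sum_eq_single i]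
  · rw [map_smul, h.eig, map_smul, map_smul, e.repr_self, Finsupp.smul_apply, Finsupp.smul_apply,
      Finsupp.single_eq_same, smul_eq_mul, smul_eq_mul, mul_one, mul_comm]
  · intro j _ hj
    rw [map_smul, h.eig, map_smul, map_smul, e.repr_self, Finsupp.smul_apply, Finsupp.smul_apply,
      Finsupp.single_eq_of_ne' hj, smul_zero, smul_zero]
  · intro h; exact absurd (Finset.mem_univ i) h

theorem IsSplit.sum_log (hD : S_DET) (hbase : HasBase P) (h : IsSplit A e c) (a : A) :
    ∑ i, Real.log (c a i) = 0 := by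
  obtain ⟨n', b, hb, hbz⟩ := hbase
  obtain rfl : n' = n := by simpa using Fintype.card_congr (b.indexEquiv e)
  have h1 := hD n' (N1 P) b e (act (a : psAut P)) (act (a : psAut P)⁻¹) (c a)
    (fun i j => hbz _ (rho_lat (a : psAut P) (hb j)) i)
    (fun i j => hbz _ (rho_lat (a : psAut P)⁻¹ (hb j)) i)
    (LinearMap.ext fun x => act_inv _ x) (h.eig a) (h.pos a)
  rw [← Real.log_prod (fun i _ => (h.pos a i).ne'), h1, Real.log_one]

/-- The theorem. -/
theorem IsSplit.main (hD : S_DET) (hR : S_RND) (hCo : S_CON) (hample : HasAmple P)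
    (hbase : HasBase P) (h : IsSplit A e c) :
    (∃ s : Fin n → ℝ, (∀ i, s i = 1 ∨ s i = -1) ∧
      (∀ x, x ∈ inn (MovE P) ↔ ∀ i, 0 < s i * e.repr x i) ∧
      ∀ x ∈ Eff P, x ≠ 0 → ∀ i, 0 < s i * e.repr x i) ∧ MovableConeConjecture P := by
  classical
  obtain ⟨n0, b, ξ, hb, hbz, hξE, hξ0, hdat⟩ := exists_datE hample hbase
  obtain ⟨H, hH⟩ := id hample
  obtain ⟨hA, hAdef⟩ : ∃ hA : N1 P, hA = cls P (rl P H) := ⟨_, rfl⟩
  have hAi : hA ∈ inn (MovE P) := by rw [hAdef]; exact ample_inn hH
  have hAE : hA ∈ inn (Eff P) := fun v => by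
    obtain ⟨ε, hε, h1⟩ := hAi v
    exact ⟨ε, hε, h1.2⟩
  have hAl : hA ∈ lat P := by rw [hAdef]; exact cls_rl_mem _
  -- rounding
  obtain ⟨R, hRd⟩ := hR n A (fun a i => Real.log (c a i))
    (fun a b i => by rw [h.mul, Real.log_mul (h.pos a i).ne' (h.pos b i).ne'])
    (h.sum_log hD hbase) h.rank
  -- domination
  have hdomu : ∀ (i : Fin n) (N : ℝ), ∃ a : A, (∀ j, j ≠ i → Real.log (c a j) ≤ -N + R) ∧
      N * (n - 1) - R ≤ Real.log (c a i) := by
    intro i N
    obtain ⟨a, ha⟩ := hRd (fun j => if j = i then N * (n - 1) else -N) (by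
      rw [← Finset.add_sum_erase _ _ (Finset.mem_univ i), if_pos rfl,
        Finset.sum_congr rfl (g := fun _ => -N) (fun j hj => by
          rw [if_neg (Finset.ne_of_mem_erase hj)]),
        Finset.sum_const, Finset.card_erase_of_mem (Finset.mem_univ i), Finset.card_univ,
        Fintype.card_fin, nsmul_eq_mul, Nat.cast_sub (by have := i.2; omega)]
      push_cast
      ring)
    refine ⟨a, fun j hj => ?_, ?_⟩
    · have h1 := ha j
      rw [if_neg hj, abs_le] at h1
      linarith
    · have h1 := ha i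
      rw [if_pos rfl, abs_le] at h1
      linarith
  have hdomA : ∀ (i : Fin n) (δ : ℝ), 0 < δ → ∃ a : A, ∀ j, j ≠ i → c a j ≤ δ * c a i := by
    intro i δ hδ
    have hn : (0 : ℝ) < n := by
      have := i.2
      have : 0 < n := by omega
      exact_mod_cast this
    obtain ⟨a, ha1, ha2⟩ := hdomu i ((2 * R - Real.log δ) / n)
    refine ⟨a, fun j hj => ?_⟩
    have h1 := ha1 j hj
    have h2 : (2 * R - Real.log δ) / n * (n - 1) =
        (2 * R - Real.log δ) - (2 * R - Real.log δ) / n := by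
      field_simp
    rw [h2] at ha2
    have h3 : Real.log (c a j) ≤ Real.log (δ * c a i) := by
      rw [Real.log_mul hδ.ne' (h.pos a i).ne']
      linarith
    exact (Real.log_le_log_iff (h.pos a j) (mul_pos hδ (h.pos a i))).1 h3
  have hdom : ∀ C : Set (N1 P), (∀ g : psAut P, ∀ x ∈ C, act g x ∈ C) → ∀ i, ∀ δ : ℝ, 0 < δ →
      ∃ (g : N1 P →ₗ[ℝ] N1 P) (c : Fin n → ℝ), (∀ x ∈ C, g x ∈ C) ∧
      (∀ j, g (e j) = c j • e j) ∧ (∀ j, 0 < c j) ∧ ∀ j, j ≠ i → c j ≤ δ * c i := by
    intro C hC i δ hδ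
    obtain ⟨a, ha⟩ := hdomA i δ hδ
    exact ⟨act (a : psAut P), c a, hC _, h.eig a, h.pos a, ha⟩
  obtain ⟨s, hs1, hs2, hs3⟩ := ort MovE_cone hAi
    (fun x h1 h2 => salient hH x (by rwa [hAdef] at h1) (by rwa [hAdef] at h2)) e
    (hdom _ fun g x => rho_MovE g)
  obtain ⟨s', hs1', hs2', hs3'⟩ := ort Eff_cone hAE
    (fun x h1 h2 => salientE hH x (by rwa [hAdef] at h1) (by rwa [hAdef] at h2)) e
    (hdom _ fun g x => rho_Eff g)
  have hss' : s = s' := by
    funext i
    have h1 := (hs3 hA).1 hAi i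
    have h2 := (hs3' hA).1 hAE i
    rcases hs1 i with h3 | h3 <;> rcases hs1' i with h4 | h4 <;> rw [h3] at h1 ⊢ <;>
      rw [h4] at h2 ⊢
    · linarith
    · linarith
  subst hss'
  have hss : ∀ i, s i * s i = 1 := fun i => by
    rcases hs1 i with h1 | h1 <;> rw [h1] <;> norm_num
  have hsabs : ∀ i, |s i| = 1 := fun i => by
    rcases hs1 i with h1 | h1 <;> rw [h1] <;> norm_num
  -- effective lattice points
  have hlatE : ∀ d ∈ lat P, d ∈ Eff P → d ≠ 0 → ∀ p, 0 < s p * e.repr d p := by
    intro d hdl hdE hd0 p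
    refine lt_of_le_of_ne (hs2' d hdE p) fun h0 => ?_
    have hp0 : e.repr d p = 0 := by
      have h1 : s p ≠ 0 := fun h1 => by
        have := hss p
        rw [h1] at this
        norm_num at this
      exact (mul_eq_zero.1 h0.symm).resolve_left h1
    obtain ⟨Z, hZ⟩ : ∃ Z : ℝ, Z = 1 + ∑ j, |e.repr d j| * |ξ (e j)| := ⟨_, rfl⟩
    have hZ0 : 0 < Z := by rw [hZ]; positivity
    obtain ⟨a, ha1, -⟩ := hdomu p (R + Real.log Z)
    have h2 : ∀ j, |e.repr (act (a : psAut P) d) j| ≤ Z⁻¹ * |e.repr d j| := by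
      intro j
      rw [h.repr, abs_mul, abs_of_pos (h.pos a j)]
      by_cases hj : j = p
      · rw [hj, hp0, abs_zero, mul_zero, mul_zero]
      · refine mul_le_mul_of_nonneg_right ?_ (abs_nonneg _)
        have h3 := ha1 j hj
        rw [← Real.log_le_log_iff (h.pos a j) (inv_pos.2 hZ0), Real.log_inv]
        linarith
    have h3 : ξ (act (a : psAut P) d) < 1 := by
      rw [← e.sum_repr (act (a : psAut P) d), map_sum]
      simp only [map_smul, smul_eq_mul]
      have h4 : ∑ j, e.repr (act (a : psAut P) d) j * ξ (e j) ≤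
          ∑ j, Z⁻¹ * (|e.repr d j| * |ξ (e j)|) := by
        refine Finset.sum_le_sum fun j _ => ?_
        refine (le_abs_self _).trans ?_
        rw [abs_mul, ← mul_assoc]
        exact mul_le_mul_of_nonneg_right (h2 j) (abs_nonneg _)
      rw [← Finset.mul_sum] at h4
      refine h4.trans_lt ?_
      rw [inv_mul_lt_iff₀ hZ0, mul_one, hZ]
      linarith
    have h5 : act (a : psAut P) d ∈ lat P := rho_lat _ hdl
    have h6 : act (a : psAut P) d ∈ Eff P := rho_Eff _ hdE
    obtain ⟨z, hz⟩ := hdat.int _ h5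
    have h7 := hξ0 _ h6
    rw [hz] at h3 h7
    have h8 : z = 0 := by
      have h9 : z < 1 := by exact_mod_cast h3
      have h10 : 0 ≤ z := by exact_mod_cast h7
      omega
    have h11 : act (a : psAut P) d = 0 := by
      refine b.ext_elem fun i => ?_
      have h12 := hξE _ h6 i
      rw [hz, h8, Int.cast_zero] at h12
      rw [abs_nonpos_iff.1 h12, map_zero, Finsupp.zero_apply]
    apply hd0
    rw [← act_inv' (a : psAut P) d, h11, map_zero]
  refine ⟨⟨s, hs1, hs3, fun x hx hx0 i => ?_⟩, ?_⟩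
  · obtain ⟨w, ⟨l, u, hu, a, ha, hw⟩, hwx⟩ := hx
    choose D hD' hDr using hu
    have hsum : x = ∑ j, a j • cls P (rl P (D j)) := by
      rw [← hwx, hw, map_sum]
      exact Finset.sum_congr rfl fun j _ => by rw [map_smul, hDr]
    have hDE : ∀ j, cls P (rl P (D j)) ∈ Eff P := fun j => ⟨_, cg_gen ⟨D j, hD' j, rfl⟩, rfl⟩
    obtain ⟨j, hj1, hj2⟩ : ∃ j, 0 < a j ∧ cls P (rl P (D j)) ≠ 0 := by
      by_contra hcon
      push Not at hcon
      apply hx0
      rw [hsum]
      refine Finset.sum_eq_zero fun j _ => ?_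
      rcases (ha j).eq_or_lt with h0 | h0
      · rw [← h0, zero_smul]
      · rw [hcon j h0, smul_zero]
    have h1 : s i * e.repr x i = ∑ j, a j * (s i * e.repr (cls P (rl P (D j))) i) := by
      rw [hsum, map_sum, Finsupp.finset_sum_apply, Finset.mul_sum]
      refine Finset.sum_congr rfl fun j _ => ?_
      rw [map_smul, Finsupp.smul_apply, smul_eq_mul]
      ring
    rw [h1]
    refine lt_of_lt_of_le (mul_pos hj1 (hlatE _ (cls_rl_mem _) (hDE j) hj2 i)) ?_
    exact Finset.single_le_sum (f := fun j => a j * (s i * e.repr (cls P (rl P (D j))) i))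
      (fun j _ => mul_nonneg (ha j) (hs2' _ (hDE j) i)) (Finset.mem_univ j)
  · -- the covering cone
    obtain ⟨T, hT⟩ : ∃ T : ℝ, T = Real.exp (2 * R) := ⟨_, rfl⟩
    obtain ⟨B, hB0, hB⟩ := hCo n T
    have hhp : ∀ j, 0 < s j * e.repr hA j := (hs3 hA).1 hAi
    have hf : ∀ i : Fin n, ∃ a : A, ∀ j, j ≠ i →
        B * (c a j * (s j * e.repr hA j)) ≤ c a i * (s i * e.repr hA i) := by
      intro i
      obtain ⟨Sh, hSh⟩ : ∃ Sh : ℝ, Sh = ∑ j, s j * e.repr hA j := ⟨_, rfl⟩
      have hle : ∀ j, s j * e.repr hA j ≤ Sh := fun j => by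
        rw [hSh]
        exact Finset.single_le_sum (f := fun j => s j * e.repr hA j)
          (fun j _ => (hhp j).le) (Finset.mem_univ j)
      have hS0 : 0 < Sh := (hhp i).trans_le (hle i)
      obtain ⟨a, ha⟩ := hdomA i (s i * e.repr hA i / (B * Sh))
        (div_pos (hhp i) (mul_pos hB0 hS0))
      refine ⟨a, fun j hj => ?_⟩
      have h1 := ha j hj
      have h2 : B * (c a j * (s j * e.repr hA j)) ≤ B * (c a j * Sh) :=
        mul_le_mul_of_nonneg_left (mul_le_mul_of_nonneg_left (hle j) (h.pos a j).le) hB0.le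
      refine h2.trans ?_
      have h3 : B * (c a j * Sh) ≤ B * (s i * e.repr hA i / (B * Sh) * c a i * Sh) :=
        mul_le_mul_of_nonneg_left (mul_le_mul_of_nonneg_right h1 hS0.le) hB0.le
      refine h3.trans (le_of_eq ?_)
      have := hB0.ne'
      have := hS0.ne'
      field_simp
    choose fa hfa using hf
    obtain ⟨v, hv⟩ : ∃ v : Fin n → N1 P, v = fun i => act (fa i : psAut P) hA := ⟨_, rfl⟩
    have hvl : ∀ i, v i ∈ lat P := fun i => by rw [hv]; exact rho_lat _ hAl
    have hvM : ∀ i, v i ∈ MovE P := fun i => by rw [hv]; exact rho_MovE _ (inn_sub hAi)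
    have hvr : ∀ i j, s j * e.repr (v i) j = c (fa i) j * (s j * e.repr hA j) := fun i j => by
      rw [hv]
      change s j * e.repr (act (fa i : psAut P) hA) j = _
      rw [h.repr]
      ring
    have hQ : RP (lat P) (cn v) := ⟨n, v, hvl, rfl⟩
    have hQM : cn v ⊆ MovE P := cn_sub MovE_cone hvM
    refine (big_main hample hbase (κ := Unit) (Q := fun _ => cn v) (fun _ => hQ)
      (fun _ x hx => (hQM hx).1) fun x hx => ?_).2 fun _ x hx => (hQM hx).2
    have hxp := (hs3 x).1 hx
    obtain ⟨μ, hμ⟩ : ∃ μ : ℝ, μ = (∑ j, Real.log (s j * e.repr x j)) / n := ⟨_, rfl⟩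
    obtain ⟨a, ha⟩ := hRd (fun i => Real.log (s i * e.repr x i) - μ) (by
      rw [Finset.sum_sub_distrib, Finset.sum_const, Finset.card_univ, Fintype.card_fin,
        nsmul_eq_mul, hμ]
      rcases Nat.eq_zero_or_pos n with hn | hn
      · subst hn
        simp
      · have : (n : ℝ) ≠ 0 := by exact_mod_cast hn.ne'
        field_simp
        ring)
    obtain ⟨y, hy⟩ : ∃ y : N1 P, y = act (a : psAut P)⁻¹ x := ⟨_, rfl⟩
    have hxy : x = act (a : psAut P) y := by rw [hy, act_inv]
    have hyr : ∀ j, s j * e.repr x j = c a j * (s j * e.repr y j) := fun j => by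
      rw [hxy, h.repr]
      ring
    have hyp : ∀ j, 0 < s j * e.repr y j := fun j => by
      have h1 := hxp j
      rw [hyr] at h1
      exact (mul_pos_iff_of_pos_left (h.pos a j)).1 h1
    have hylog : ∀ j, |Real.log (s j * e.repr y j) - μ| ≤ R := fun j => by
      have h1 := ha j
      rw [hyr, Real.log_mul (h.pos a j).ne' (hyp j).ne'] at h1
      have h2 : Real.log (c a j) + Real.log (s j * e.repr y j) - μ - Real.log (c a j) =
          Real.log (s j * e.repr y j) - μ := by ring
      rwa [h2] at h1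
    obtain ⟨lm, hlm⟩ : ∃ lm : ℝ, lm = Real.exp (μ - R) := ⟨_, rfl⟩
    have hlm0 : 0 < lm := by rw [hlm]; exact Real.exp_pos _
    obtain ⟨w, hw0, hw⟩ := hB (fun i j => s j * e.repr (v i) j)
      (fun i j => by rw [hvr]; exact mul_pos (h.pos _ _) (hhp j))
      (fun i j hj => by rw [hvr, hvr]; exact hfa i j hj)
      (fun j => lm⁻¹ * (s j * e.repr y j)) (fun j => by
        have h1 := abs_le.1 (hylog j)
        have h2 : s j * e.repr y j = Real.exp (Real.log (s j * e.repr y j)) :=
          (Real.exp_log (hyp j)).symm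
        rw [hlm, hT, ← Real.exp_neg, h2, ← Real.exp_add]
        constructor
        · rw [← Real.exp_zero]
          exact Real.exp_le_exp.2 (by linarith)
        · exact Real.exp_le_exp.2 (by linarith))
    refine ⟨(a : psAut P), (), y, ⟨fun i => lm * w i, fun i => mul_nonneg hlm0.le (hw0 i), ?_⟩,
      hxy.symm⟩
    refine e.ext_elem fun j => ?_
    have h1 := hw j
    have h2 : s j * e.repr y j = lm * ∑ i, w i * (s j * e.repr (v i) j) := by
      rw [← h1, ← mul_assoc, mul_inv_cancel₀ hlm0.ne', one_mul]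
    have h3 : s j * e.repr (∑ i, (lm * w i) • v i) j =
        lm * ∑ i, w i * (s j * e.repr (v i) j) := by
      rw [map_sum, Finsupp.finset_sum_apply, Finset.mul_sum, Finset.mul_sum]
      refine Finset.sum_congr rfl fun i _ => ?_
      rw [map_smul, Finsupp.smul_apply, smul_eq_mul]
      ring
    have h4 : s j ≠ 0 := fun h0 => by
      have := hss j
      rw [h0] at this
      norm_num at this
    exact mul_left_cancel₀ h4 (h2.trans h3.symm)

end

end Pool.Agent.K1H17.ST
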