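import Mathlib

/-! Split abelian groups of birational automorphisms: statements of the pieces. -/

set_option autoImplicit false

open Module

namespace Pool.Agent.K1H17.ST

/-- Automorphisms of a lattice with positive eigenvalues have determinant one. -/
def S_DET : Prop := ∀ (n : ℕ) (V : Type) [AddCommGroup V] [Module ℝ V] (b e : Basis (Fin n) ℝ V)
  (f g : V →ₗ[ℝ] V) (c : Fin n → ℝ), (∀ i j, ∃ z : ℤ, b.repr (f (b j)) i = z) →
  (∀ i j, ∃ z : ℤ, b.repr (g (b j)) i = z) → f ∘ₗ g = LinearMap.id →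
  (∀ i, f (e i) = c i • e i) → (∀ i, 0 < c i) → ∏ i, c i = 1

/-- Rounding: a subgroup which spans the hyperplane of sum zero is cocompact in it. -/
def S_RND : Prop := ∀ (n : ℕ) (A : Type) [Group A] (Λ : A → Fin n → ℝ),
  (∀ a b i, Λ (a * b) i = Λ a i + Λ b i) → (∀ a, ∑ i, Λ a i = 0) →
  (∀ w : Fin n → ℝ, (∀ a, ∑ i, w i * Λ a i = 0) → ∀ i j, w i = w j) →
  ∃ R : ℝ, ∀ u : Fin n → ℝ, ∑ i, u i = 0 → ∃ a, ∀ i, |u i - Λ a i| ≤ R

/-- The cone generated by vectors near the rays of the coordinate vectors. -/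
def S_CON : Prop := ∀ (n : ℕ) (T : ℝ), ∃ B : ℝ, 0 < B ∧ ∀ v : Fin n → Fin n → ℝ,
  (∀ i j, 0 < v i j) → (∀ i j, j ≠ i → B * v i j ≤ v i i) →
  ∀ y : Fin n → ℝ, (∀ j, 1 ≤ y j ∧ y j ≤ T) → ∃ a : Fin n → ℝ, (∀ i, 0 ≤ a i) ∧
    ∀ j, y j = ∑ i, a i * v i j

end Pool.Agent.K1H17.ST
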