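import Pool.Agent.K1H17.MC.Bg
import Pool.Agent.K1H17.ST.Stm

/-! Cones which are preserved by a large group of diagonal maps. -/

set_option autoImplicit false
set_option linter.overlappingInstances false
set_option linter.unusedSectionVars false
set_option linter.unusedVariables false

open Module Pool.Agent.K1H17.MC

namespace Pool.Agent.K1H17.ST

section

variable {V : Type*} [AddCommGroup V] [Module ℝ V]

theorem cone_seg {C : Set V} (hC : IsCone C) {x w : V} {ε ε1 : ℝ} (hε : 0 ≤ ε) (hle : ε ≤ ε1)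
    (hε1 : 0 < ε1) (hx : x ∈ C) (hw : x + ε1 • w ∈ C) : x + ε • w ∈ C := by
  have h7 : x + ε • w = (1 - ε / ε1) • x + (ε / ε1) • (x + ε1 • w) := by
    rw [smul_add, smul_smul, div_mul_cancel₀ _ hε1.ne', sub_smul, one_smul]
    abel
  rw [h7]
  refine hC.add _ (hC.smul _ ?_ _ hx) _ (hC.smul _ (by positivity) _ hw)
  rw [sub_nonneg, div_le_one hε1]
  exact hle

/-- A box around an interior point. -/
theorem inn_box {C : Set V} (hC : IsCone C) {h : V} (hh : h ∈ inn C) {n : ℕ} (e : Fin n → V) :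
    ∃ η : ℝ, 0 < η ∧ ∀ δ : Fin n → ℝ, (∀ j, |δ j| ≤ η) → h + ∑ j, δ j • e j ∈ C := by
  classical
  choose p hp0 hp using fun j => hh (e j)
  choose q hq0 hq using fun j => hh (-(e j))
  have h0 : h ∈ C := inn_sub hh
  rcases Nat.eq_zero_or_pos n with hn | hn
  · subst hn
    exact ⟨1, one_pos, fun δ _ => by simpa using h0⟩
  have : Nonempty (Fin n) := ⟨⟨0, hn⟩⟩
  obtain ⟨η0, hη0, hη⟩ : ∃ η0 : ℝ, 0 < η0 ∧ ∀ j, η0 ≤ p j ∧ η0 ≤ q j := by
    obtain ⟨j0, -, hj0⟩ := Finset.exists_min_image Finset.univ (fun j => min (p j) (q j))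
      Finset.univ_nonempty
    exact ⟨min (p j0) (q j0), lt_min (hp0 _) (hq0 _), fun j =>
      ⟨(hj0 j (Finset.mem_univ _)).trans (min_le_left _ _),
        (hj0 j (Finset.mem_univ _)).trans (min_le_right _ _)⟩⟩
  have hn' : (0 : ℝ) < n := by exact_mod_cast hn
  refine ⟨η0 / n, div_pos hη0 hn', fun δ hδ => ?_⟩
  have h1 : ∀ j, h + ((n : ℝ) * δ j) • e j ∈ C := by
    intro j
    have h2 : |(n : ℝ) * δ j| ≤ η0 := by
      rw [abs_mul, abs_of_pos hn']
      have := hδ j
      rw [le_div_iff₀ hn'] at this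
      linarith
    rcases le_total 0 ((n : ℝ) * δ j) with h3 | h3
    · rw [abs_of_nonneg h3] at h2
      exact cone_seg hC h3 (h2.trans (hη j).1) (hp0 j) h0 (hp j)
    · rw [abs_of_nonpos h3] at h2
      have h4 := cone_seg hC (by linarith : 0 ≤ -((n : ℝ) * δ j)) (h2.trans (hη j).2) (hq0 j) h0
        (hq j)
      rwa [smul_neg, neg_smul, neg_neg] at h4
  have h2 : h + ∑ j, δ j • e j = (1 / (n : ℝ)) • ∑ j, (h + ((n : ℝ) * δ j) • e j) := by
    rw [Finset.sum_add_distrib, Finset.sum_const, Finset.card_univ, Fintype.card_fin, smul_add,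
      ← Nat.cast_smul_eq_nsmul ℝ, smul_smul, one_div, inv_mul_cancel₀ hn'.ne', one_smul,
      Finset.smul_sum]
    congr 1
    refine Finset.sum_congr rfl fun j _ => ?_
    rw [smul_smul, ← mul_assoc, inv_mul_cancel₀ hn'.ne', one_mul]
  rw [h2]
  exact hC.smul _ (by positivity) _ (hC.sum _ _ fun j _ => h1 j)

/-- The cone is a simplicial cone. -/
theorem ort {C : Set V} (hC : IsCone C) {h : V} (hh : h ∈ inn C)
    (hsal : ∀ x, (∀ ε : ℝ, 0 < ε → x + ε • h ∈ C) → (∀ ε : ℝ, 0 < ε → -x + ε • h ∈ C) → x = 0)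
    {n : ℕ} (e : Basis (Fin n) ℝ V)
    (hdom : ∀ i, ∀ δ : ℝ, 0 < δ → ∃ (g : V →ₗ[ℝ] V) (c : Fin n → ℝ), (∀ x ∈ C, g x ∈ C) ∧
      (∀ j, g (e j) = c j • e j) ∧ (∀ j, 0 < c j) ∧ ∀ j, j ≠ i → c j ≤ δ * c i) :
    ∃ s : Fin n → ℝ, (∀ i, s i = 1 ∨ s i = -1) ∧
      (∀ x ∈ C, ∀ i, 0 ≤ s i * e.repr x i) ∧
      ∀ x, x ∈ inn C ↔ ∀ i, 0 < s i * e.repr x i := by
  classical
  obtain ⟨η, hη, hbox⟩ := inn_box hC hh e
  have hexp : ∀ x : V, x = ∑ j, e.repr x j • e j := fun x => (e.sum_repr x).symm
  -- the rays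
  have hray : ∀ x ∈ C, ∀ i, ∀ ε : ℝ, 0 < ε → e.repr x i • e i + ε • h ∈ C := by
    intro x hx i ε hε
    obtain ⟨X, hX⟩ : ∃ X : ℝ, X = 1 + ∑ j, |e.repr x j| := ⟨_, rfl⟩
    have hX0 : 0 < X := by rw [hX]; positivity
    obtain ⟨g, c, hgC, hge, hc0, hcd⟩ := hdom i (ε * η / X) (by positivity)
    obtain ⟨δ, hδ⟩ : ∃ δ : Fin n → ℝ, δ = fun j =>
      if j = i then 0 else -(c j / c i * e.repr x j / ε) := ⟨_, rfl⟩
    have hδb : ∀ j, |δ j| ≤ η := by
      intro j
      rw [hδ]
      by_cases hj : j = i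
      · simp only [hj, if_true, abs_zero]
        exact hη.le
      · simp only [if_neg hj]
        rw [abs_neg, abs_div, abs_mul, abs_div, abs_of_pos (hc0 j), abs_of_pos (hc0 i),
          abs_of_pos hε, div_le_iff₀ hε]
        have h1 : c j / c i ≤ ε * η / X := by
          rw [div_le_iff₀ (hc0 i)]
          exact hcd j hj
        have h2 : |e.repr x j| ≤ X := by
          rw [hX]
          have := Finset.single_le_sum (f := fun j => |e.repr x j|) (fun j _ => abs_nonneg _)
            (Finset.mem_univ j)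
          linarith
        have h3 : c j / c i * |e.repr x j| ≤ ε * η / X * X :=
          mul_le_mul h1 h2 (abs_nonneg _) (by positivity)
        rw [div_mul_cancel₀ _ hX0.ne'] at h3
        linarith
    have h1 := hbox δ hδb
    have h2 : e.repr x i • e i + ε • h = (c i)⁻¹ • g x + ε • (h + ∑ j, δ j • e j) := by
      conv_rhs => rw [hexp x]
      rw [map_sum, smul_add, Finset.smul_sum, Finset.smul_sum]
      simp only [map_smul, hge]
      have h3 : ∀ j, (c i)⁻¹ • e.repr x j • c j • e j + ε • δ j • e j =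
          if j = i then e.repr x i • e i else 0 := by
        intro j
        rw [smul_smul, smul_smul, smul_smul, ← add_smul, hδ]
        by_cases hj : j = i
        · subst hj
          simp only [if_true]
          congr 1
          have := (hc0 j).ne'
          field_simp
          ring
        · simp only [if_neg hj]
          have h4 : (c i)⁻¹ * e.repr x j * c j + ε * -(c j / c i * e.repr x j / ε) = 0 := by
            have := (hc0 i).ne'
            field_simp
            ring
          rw [h4, zero_smul]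
      have h5 : ∑ j, ((c i)⁻¹ • e.repr x j • c j • e j + ε • δ j • e j) = e.repr x i • e i := by
        simp only [h3]
        rw [Finset.sum_ite_eq' Finset.univ i, if_pos (Finset.mem_univ i)]
      rw [← h5, Finset.sum_add_distrib]
      abel
    rw [h2]
    exact hC.add _ (hC.smul _ (inv_pos.2 (hc0 i)).le _ (hgC x hx)) _ (hC.smul _ hε.le _ h1)
  obtain ⟨s, hs⟩ : ∃ s : Fin n → ℝ, s = fun i => if 0 ≤ e.repr h i then 1 else -1 := ⟨_, rfl⟩
  have hs1 : ∀ i, s i = 1 ∨ s i = -1 := by
    intro i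
    rw [hs]
    by_cases h0 : 0 ≤ e.repr h i
    · left; simp [h0]
    · right; simp [h0]
  have hss : ∀ i, s i * s i = 1 := fun i => by
    rcases hs1 i with h1 | h1 <;> rw [h1] <;> norm_num
  have hsabs : ∀ i, |s i| = 1 := fun i => by
    rcases hs1 i with h1 | h1 <;> rw [h1] <;> norm_num
  have hsh : ∀ i, 0 ≤ s i * e.repr h i := by
    intro i
    rw [hs]
    by_cases h0 : 0 ≤ e.repr h i
    · simp only [if_pos h0, one_mul]; exact h0
    · simp only [if_neg h0]
      push Not at h0
      linarith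
  -- the point with nonzero coordinates
  obtain ⟨h', hh'⟩ : ∃ h' : V, h' = h + ∑ j, (s j * (η / 2)) • e j := ⟨_, rfl⟩
  have hh'C : h' ∈ C := by
    rw [hh']
    refine hbox _ fun j => ?_
    rw [abs_mul, hsabs, one_mul, abs_of_pos (by positivity)]
    linarith
  have hh'r : ∀ i, e.repr h' i = e.repr h i + s i * (η / 2) := by
    intro i
    rw [hh', map_add, Finsupp.add_apply, map_sum, Finsupp.finset_sum_apply]
    congr 1
    rw [Finset.sum_eq_single i]
    · rw [map_smul, e.repr_self, Finsupp.smul_apply, Finsupp.single_eq_same, smul_eq_mul, mul_one]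
    · intro j _ hj
      rw [map_smul, e.repr_self, Finsupp.smul_apply, Finsupp.single_eq_of_ne' hj, smul_zero]
    · intro h; exact absurd (Finset.mem_univ i) h
  have hh'p : ∀ i, 0 < s i * e.repr h' i := by
    intro i
    rw [hh'r, mul_add, ← mul_assoc, hss, one_mul]
    have := hsh i
    linarith
  have hunit : ∀ (i : Fin n) (a : ℝ), 0 < s i * a → (∀ ε : ℝ, 0 < ε → a • e i + ε • h ∈ C) →
      ∀ ε : ℝ, 0 < ε → s i • e i + ε • h ∈ C := by
    intro i a ha hr ε hε
    have h1 := hr (ε * (s i * a)) (by positivity)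
    have h2 : s i • e i + ε • h = (s i * a)⁻¹ • (a • e i + (ε * (s i * a)) • h) := by
      rw [smul_add, smul_smul, smul_smul]
      congr 2
      · have h3 : a = s i * (s i * a) := by rw [← mul_assoc, hss, one_mul]
        rw [eq_comm]
        nth_rewrite 2 [h3]
        rw [mul_comm (s i) (s i * a), ← mul_assoc, inv_mul_cancel₀ ha.ne', one_mul]
      · rw [mul_comm ε, ← mul_assoc, inv_mul_cancel₀ ha.ne', one_mul]
    rw [h2]
    exact hC.smul _ (inv_pos.2 ha).le _ h1
  have hse : ∀ i, ∀ ε : ℝ, 0 < ε → s i • e i + ε • h ∈ C := fun i =>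
    hunit i _ (hh'p i) (hray h' hh'C i)
  have hnn : ∀ x ∈ C, ∀ i, 0 ≤ s i * e.repr x i := by
    intro x hx i
    by_contra hcon
    push Not at hcon
    have h1 : ∀ ε : ℝ, 0 < ε → -(s i • e i) + ε • h ∈ C := by
      intro ε hε
      have ha : 0 < -(s i * e.repr x i) := by linarith
      have h1 := hray x hx i (ε * -(s i * e.repr x i)) (by positivity)
      have h2 : -(s i • e i) + ε • h = (-(s i * e.repr x i))⁻¹ •
          (e.repr x i • e i + (ε * -(s i * e.repr x i)) • h) := by
        rw [smul_add, smul_smul, smul_smul, ← neg_smul]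
        congr 2
        · have h3 : e.repr x i = (-s i) * (-(s i * e.repr x i)) := by
            rw [neg_mul_neg, ← mul_assoc, hss, one_mul]
          rw [eq_comm]
          nth_rewrite 2 [h3]
          rw [mul_comm (-s i) (-(s i * e.repr x i)), ← mul_assoc, inv_mul_cancel₀ ha.ne', one_mul]
        · rw [mul_comm ε, ← mul_assoc, inv_mul_cancel₀ ha.ne', one_mul]
      rw [h2]
      exact hC.smul _ (inv_pos.2 ha).le _ h1
    have h2 := hsal _ (hse i) h1
    have h3 : s i ≠ 0 := fun h0 => by
      have := hss i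
      rw [h0] at this
      norm_num at this
    exact e.ne_zero i ((smul_eq_zero.1 h2).resolve_left h3)
  refine ⟨s, hs1, hnn, fun x => ⟨fun hx i => ?_, fun hx => ?_⟩⟩
  · obtain ⟨ε, hε, h1⟩ := hx (-(s i • e i))
    have h2 := hnn _ h1 i
    have h3 : e.repr (x + ε • -(s i • e i)) i = e.repr x i - ε * s i := by
      rw [map_add, Finsupp.add_apply, map_smul, map_neg, map_smul, e.repr_self,
        Finsupp.smul_apply, Finsupp.neg_apply, Finsupp.smul_apply, Finsupp.single_eq_same,
        smul_eq_mul, smul_eq_mul, mul_one]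
      ring
    rw [h3, mul_sub, ← mul_assoc, mul_comm (s i) ε, mul_assoc, hss, mul_one] at h2
    linarith
  · rcases Nat.eq_zero_or_pos n with hn | hn
    · subst hn
      have h1 : x = h := e.ext_elem fun i => i.elim0
      rw [h1]
      exact hh
    have : Nonempty (Fin n) := ⟨⟨0, hn⟩⟩
    obtain ⟨j0, -, hj0⟩ := Finset.exists_min_image Finset.univ (fun j => s j * e.repr x j)
      Finset.univ_nonempty
    obtain ⟨X, hX⟩ : ∃ X : ℝ, X = 1 + ∑ j, |e.repr h j| := ⟨_, rfl⟩
    have hX0 : 0 < X := by rw [hX]; positivity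
    obtain ⟨ε, hεdef⟩ : ∃ ε : ℝ, ε = s j0 * e.repr x j0 / (2 * X) := ⟨_, rfl⟩
    have hε : 0 < ε := by rw [hεdef]; exact div_pos (hx j0) (by positivity)
    obtain ⟨y, hy⟩ : ∃ y : Fin n → ℝ, y = fun j => s j * (e.repr x j - ε * e.repr h j) := ⟨_, rfl⟩
    have hy0 : ∀ j, 0 ≤ y j := by
      intro j
      rw [hy]
      have h1 := hj0 j (Finset.mem_univ j)
      have h2 : |e.repr h j| ≤ X := by
        rw [hX]
        have := Finset.single_le_sum (f := fun j => |e.repr h j|) (fun j _ => abs_nonneg _)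
          (Finset.mem_univ j)
        linarith
      have h3 : s j * (ε * e.repr h j) ≤ ε * X := by
        have h4 : s j * (ε * e.repr h j) ≤ |s j * (ε * e.repr h j)| := le_abs_self _
        rw [abs_mul, abs_mul, hsabs, one_mul, abs_of_pos hε] at h4
        exact h4.trans (mul_le_mul_of_nonneg_left h2 hε.le)
      have h5 : ε * X = s j0 * e.repr x j0 / 2 := by
        rw [hεdef]
        have := hX0.ne'
        field_simp
      have h6 := hx j0
      change 0 ≤ s j * (e.repr x j - ε * e.repr h j)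
      rw [mul_sub]
      linarith
    obtain ⟨ε', hε'⟩ : ∃ ε' : ℝ, ε' = ε / (2 * (1 + ∑ j, y j)) := ⟨_, rfl⟩
    have hY0 : 0 < 1 + ∑ j, y j := by
      have := Finset.sum_nonneg fun j (_ : j ∈ Finset.univ) => hy0 j
      linarith
    have hε'0 : 0 < ε' := by rw [hε']; positivity
    have hrem : 0 < ε - ε' * ∑ j, y j := by
      have h1 : ε' * (1 + ∑ j, y j) = ε / 2 := by
        rw [hε']
        have := hY0.ne'
        field_simp
      nlinarith
    have h1 : x = (∑ j, y j • (s j • e j + ε' • h)) + (ε - ε' * ∑ j, y j) • h := by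
      have h2 : ∑ j, y j • (s j • e j + ε' • h) = ∑ j, y j • s j • e j + (ε' * ∑ j, y j) • h := by
        simp only [smul_add]
        rw [Finset.sum_add_distrib, Finset.mul_sum, Finset.sum_smul]
        congr 1
        exact Finset.sum_congr rfl fun j _ => by rw [smul_smul, mul_comm]
      have h3 : ∑ j, y j • s j • e j = x - ε • h := by
        rw [hexp (x - ε • h)]
        refine Finset.sum_congr rfl fun j _ => ?_
        rw [smul_smul]
        congr 1
        rw [hy, map_sub, Finsupp.sub_apply, map_smul, Finsupp.smul_apply, smul_eq_mul]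
        change s j * (e.repr x j - ε * e.repr h j) * s j = _
        rw [mul_comm, ← mul_assoc, hss, one_mul]
      rw [h2, h3, sub_smul]
      abel
    rw [h1, add_comm]
    exact inn_add hC (inn_smul hC hh hrem) (hC.sum _ _ fun j _ => hC.smul _ (hy0 j) _ (hse j _ hε'0))

end

end Pool.Agent.K1H17.ST
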